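import Mathlib

set_option autoImplicit false
set_option linter.unusedSectionVars false

/-! Packing bound for finite commutative groups of linear isometries without non-identity elements
near the identity. -/

namespace Pool.Agent.TH747.Del

open Module Module.End

variable {V : Type*} [NormedAddCommGroup V] [InnerProductSpace ℝ V] [FiniteDimensional ℝ V]

/-- an isometry as an endomorphism -/
noncomputable def L (a : V ≃ₗᵢ[ℝ] V) : Module.End ℝ V := a.toLinearEquiv.toLinearMap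

lemma L_apply (a : V ≃ₗᵢ[ℝ] V) (v : V) : L a v = a v := rfl

lemma ap_inv (a : V ≃ₗᵢ[ℝ] V) (v : V) : a (a⁻¹ v) = v := a.apply_symm_apply v
lemma inv_ap (a : V ≃ₗᵢ[ℝ] V) (v : V) : a⁻¹ (a v) = v := a.symm_apply_apply v
lemma mul_ap (a b : V ≃ₗᵢ[ℝ] V) (v : V) : (a * b) v = a (b v) := rfl

lemma inner_l (a : V ≃ₗᵢ[ℝ] V) (v w : V) : inner ℝ (a v) w = inner ℝ v (a⁻¹ w) := by
  rw [← a.inner_map_map v (a⁻¹ w), ap_inv]

lemma inner_l' (a : V ≃ₗᵢ[ℝ] V) (v w : V) : inner ℝ (a⁻¹ v) w = inner ℝ v (a w) := by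
  have := inner_l a⁻¹ v w
  rwa [inv_inv] at this

variable (A : Subgroup (V ≃ₗᵢ[ℝ] V))

/-- the commuting symmetric operators -/
noncomputable def T : A ⊕ (A × A) → Module.End ℝ V
  | Sum.inl a => L a.1 + L a.1⁻¹
  | Sum.inr (a, b) => (L a.1 - L a.1⁻¹) * (L b.1 - L b.1⁻¹)

/-- joint eigenspaces -/
noncomputable def F (χ : A ⊕ (A × A) → ℝ) : Submodule ℝ V := ⨅ i, eigenspace (T A i) (χ i)

variable {A}

lemma mem_F {χ : A ⊕ (A × A) → ℝ} {w : V} : w ∈ F A χ ↔ ∀ i, T A i w = χ i • w := by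
  unfold F
  rw [Submodule.mem_iInf]
  exact forall_congr' fun i => mem_eigenspace_iff

lemma L_comm (hA : ∀ a ∈ A, ∀ b ∈ A, a * b = b * a) {a b : V ≃ₗᵢ[ℝ] V} (ha : a ∈ A) (hb : b ∈ A) :
    Commute (L a) (L b) := by
  have h := hA a ha b hb
  ext v
  change a (b v) = b (a v)
  rw [← mul_ap, h, mul_ap]

lemma T_L_comm (hA : ∀ a ∈ A, ∀ b ∈ A, a * b = b * a) (i : A ⊕ (A × A)) {c : V ≃ₗᵢ[ℝ] V}
    (hc : c ∈ A) : Commute (T A i) (L c) := by
  rcases i with a | ⟨a, b⟩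
  · exact (L_comm hA a.2 hc).add_left (L_comm hA (A.inv_mem a.2) hc)
  · exact ((L_comm hA a.2 hc).sub_left (L_comm hA (A.inv_mem a.2) hc)).mul_left
      ((L_comm hA b.2 hc).sub_left (L_comm hA (A.inv_mem b.2) hc))

lemma T_comm (hA : ∀ a ∈ A, ∀ b ∈ A, a * b = b * a) (i j : A ⊕ (A × A)) :
    Commute (T A i) (T A j) := by
  rcases j with a | ⟨a, b⟩
  · exact (T_L_comm hA i a.2).add_right (T_L_comm hA i (A.inv_mem a.2))
  · exact ((T_L_comm hA i a.2).sub_right (T_L_comm hA i (A.inv_mem a.2))).mul_right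
      ((T_L_comm hA i b.2).sub_right (T_L_comm hA i (A.inv_mem b.2)))

lemma T_symm (hA : ∀ a ∈ A, ∀ b ∈ A, a * b = b * a) (i : A ⊕ (A × A)) :
    (T A i : V →ₗ[ℝ] V).IsSymmetric := by
  rcases i with a | ⟨a, b⟩
  · intro v w
    change inner ℝ (a.1 v + a.1⁻¹ v) w = inner ℝ v (a.1 w + a.1⁻¹ w)
    rw [inner_add_left, inner_add_right, inner_l, inner_l']
    ring
  · intro v w
    have hskew : ∀ (c : A) (x y : V), inner ℝ (c.1 x - c.1⁻¹ x) y = - inner ℝ x (c.1 y - c.1⁻¹ y) := by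
      intro c x y
      rw [inner_sub_left, inner_sub_right, inner_l, inner_l']
      ring
    have hcomm : (L a.1 - L a.1⁻¹) * (L b.1 - L b.1⁻¹) = (L b.1 - L b.1⁻¹) * (L a.1 - L a.1⁻¹) :=
      ((L_comm hA a.2 b.2).sub_left (L_comm hA (A.inv_mem a.2) b.2)).sub_right
        ((L_comm hA a.2 (A.inv_mem b.2)).sub_left (L_comm hA (A.inv_mem a.2) (A.inv_mem b.2)))
    have e1 : inner ℝ (T A (Sum.inr (a, b)) v) w
        = inner ℝ v ((L b.1 - L b.1⁻¹) ((L a.1 - L a.1⁻¹) w)) := by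
      change inner ℝ (a.1 ((L b.1 - L b.1⁻¹) v) - a.1⁻¹ ((L b.1 - L b.1⁻¹) v)) w = _
      rw [hskew]
      change - inner ℝ (b.1 v - b.1⁻¹ v) (a.1 w - a.1⁻¹ w) = _
      rw [hskew, neg_neg]
      rfl
    rw [e1, ← Module.End.mul_apply, ← hcomm]
    rfl

lemma F_inv (hA : ∀ a ∈ A, ∀ b ∈ A, a * b = b * a) {χ : A ⊕ (A × A) → ℝ} {w : V}
    (hw : w ∈ F A χ) {c : V ≃ₗᵢ[ℝ] V} (hc : c ∈ A) : c w ∈ F A χ := by
  rw [mem_F] at hw ⊢
  intro i
  have h := T_L_comm hA i hc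
  have h2 : T A i (L c w) = L c (T A i w) := by
    rw [← Module.End.mul_apply, h.eq, Module.End.mul_apply]
  rw [L_apply, hw i, map_smul, L_apply] at h2
  exact h2

lemma F_dist {χ : A ⊕ (A × A) → ℝ} {w : V} (hw : w ∈ F A χ) (c : A) :
    ‖c.1 w - w‖ ^ 2 = (2 - χ (Sum.inl c)) * ‖w‖ ^ 2 := by
  have h := mem_F.mp hw (Sum.inl c)
  have h2 : inner ℝ (c.1 w + c.1⁻¹ w) w = χ (Sum.inl c) * ‖w‖ ^ 2 := by
    have : c.1 w + c.1⁻¹ w = χ (Sum.inl c) • w := h
    rw [this, inner_smul_left, real_inner_self_eq_norm_sq]; simp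
  rw [inner_add_left, inner_l', real_inner_comm (c.1 w) w] at h2
  have h3 : ‖c.1 w - w‖ ^ 2 = ‖c.1 w‖ ^ 2 - 2 * inner ℝ (c.1 w) w + ‖w‖ ^ 2 := norm_sub_sq_real _ _
  rw [c.1.norm_map] at h3
  linarith

lemma two_dim (hA : ∀ a ∈ A, ∀ b ∈ A, a * b = b * a) {χ : A ⊕ (A × A) → ℝ} {v : V}
    (hv : v ∈ F A χ) (hv1 : ‖v‖ = 1) :
    ∃ u : V, ‖u‖ ≤ 1 ∧ ∀ a : A, a.1 v = (inner ℝ v (a.1 v)) • v + (inner ℝ u (a.1 v)) • u := by
  have hT : ∀ a : A, a.1 v + a.1⁻¹ v = χ (Sum.inl a) • v := fun a => mem_F.mp hv (Sum.inl a)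
  have hS : ∀ a b : A, (L a.1 - L a.1⁻¹) ((L b.1 - L b.1⁻¹) v) = χ (Sum.inr (a, b)) • v :=
    fun a b => mem_F.mp hv (Sum.inr (a, b))
  have horth : ∀ a : A, inner ℝ v (a.1 v - a.1⁻¹ v) = (0 : ℝ) := by
    intro a
    rw [inner_sub_right, ← inner_l, real_inner_comm v (a.1 v), sub_self]
  have hvv : inner ℝ v v = (1 : ℝ) := by rw [real_inner_self_eq_norm_sq, hv1]; norm_num
  have hdec : ∀ a : A, a.1 v = (χ (Sum.inl a) / 2) • v + (1 / 2 : ℝ) • (a.1 v - a.1⁻¹ v) := by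
    intro a
    have : (χ (Sum.inl a) / 2) • v = (1 / 2 : ℝ) • (a.1 v + a.1⁻¹ v) := by
      rw [hT a, smul_smul]; congr 1; ring
    rw [this, ← smul_add]
    have e : a.1 v + a.1⁻¹ v + (a.1 v - a.1⁻¹ v) = (2 : ℝ) • a.1 v := by rw [two_smul]; abel
    rw [e, smul_smul]; norm_num
  have hin : ∀ a : A, inner ℝ v (a.1 v) = χ (Sum.inl a) / 2 := by
    intro a
    conv_lhs => rw [hdec a]
    rw [inner_add_right, inner_smul_right, inner_smul_right, horth, hvv]; ring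
  by_cases h0 : ∀ a : A, a.1 v - a.1⁻¹ v = 0
  · refine ⟨0, by simp, fun a => ?_⟩
    rw [hin a]
    conv_lhs => rw [hdec a]
    rw [h0 a]; simp
  · push Not at h0
    obtain ⟨a0, ha0⟩ := h0
    set s0 := a0.1 v - a0.1⁻¹ v with hs0
    have hs0n : ‖s0‖ ≠ 0 := norm_ne_zero_iff.mpr ha0
    have hs0p : 0 < ‖s0‖ := norm_pos_iff.mpr ha0
    have hlam : χ (Sum.inr (a0, a0)) = - ‖s0‖ ^ 2 := by
      have h1 := hS a0 a0
      have h2 : inner ℝ v ((L a0.1 - L a0.1⁻¹) ((L a0.1 - L a0.1⁻¹) v)) = χ (Sum.inr (a0, a0)) := by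
        rw [h1, inner_smul_right, hvv, mul_one]
      have h3 : (L a0.1 - L a0.1⁻¹) v = s0 := rfl
      rw [h3] at h2
      have h4 : (L a0.1 - L a0.1⁻¹) s0 = a0.1 s0 - a0.1⁻¹ s0 := rfl
      rw [h4, inner_sub_right, ← inner_l', ← inner_l] at h2
      have h5 : ‖s0‖ ^ 2 = inner ℝ s0 s0 := (real_inner_self_eq_norm_sq s0).symm
      have h6 : inner ℝ s0 s0 = inner ℝ (a0.1 v) s0 - inner ℝ (a0.1⁻¹ v) s0 := by
        rw [← inner_sub_left]
      rw [h5, h6, ← h2]; ring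
    have hcl : ∀ b : A, b.1 v - b.1⁻¹ v
        = (χ (Sum.inr (a0, b)) / χ (Sum.inr (a0, a0))) • s0 := by
      intro b
      set l := χ (Sum.inr (a0, a0)) with hl
      have hl0 : l ≠ 0 := by
        rw [hlam]
        have := pow_pos hs0p 2
        linarith
      set S0 := (L a0.1 - L a0.1⁻¹ : Module.End ℝ V) with hS0
      set Sb := (L b.1 - L b.1⁻¹ : Module.End ℝ V) with hSb
      have hc : S0 * Sb = Sb * S0 :=
        ((L_comm hA a0.2 b.2).sub_left (L_comm hA (A.inv_mem a0.2) b.2)).sub_right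
          ((L_comm hA a0.2 (A.inv_mem b.2)).sub_left (L_comm hA (A.inv_mem a0.2) (A.inv_mem b.2)))
      have hc' : ∀ x, S0 (Sb x) = Sb (S0 x) := fun x => by
        rw [← Module.End.mul_apply, hc, Module.End.mul_apply]
      have k1 : S0 (Sb v) = χ (Sum.inr (a0, b)) • v := hS a0 b
      have k2 : S0 s0 = l • v := hS a0 a0
      have k3 : S0 (S0 (Sb v)) = l • Sb v := by
        rw [hc', hc', show S0 v = s0 from rfl, k2, map_smul]
      have k4 : S0 (S0 s0) = l • s0 := by rw [k2, map_smul]; rfl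
      have k5 : S0 (Sb v - (χ (Sum.inr (a0, b)) / l) • s0) = 0 := by
        rw [map_sub, map_smul, k1, k2, smul_smul, div_mul_cancel₀ _ hl0, sub_self]
      have k6 : l • (Sb v - (χ (Sum.inr (a0, b)) / l) • s0) = 0 := by
        rw [smul_sub, ← k3, smul_comm, ← k4]
        have := congrArg S0 k5
        rw [map_zero, map_sub, map_sub, map_smul, map_smul] at this
        exact this
      have k7 := (smul_eq_zero.mp k6).resolve_left hl0
      exact sub_eq_zero.mp k7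
    refine ⟨(‖s0‖)⁻¹ • s0, ?_, fun a => ?_⟩
    · rw [norm_smul, norm_inv, norm_norm, inv_mul_cancel₀ hs0n]
    · set c := χ (Sum.inr (a0, a)) / χ (Sum.inr (a0, a0)) with hc
      have hs0v : inner ℝ s0 v = (0 : ℝ) := by rw [real_inner_comm]; exact horth a0
      have h1 : a.1 v = (χ (Sum.inl a) / 2) • v + (1 / 2 * c) • s0 := by
        conv_lhs => rw [hdec a]
        rw [hcl a, smul_smul]
      have h2 : inner ℝ ((‖s0‖)⁻¹ • s0) (a.1 v) = (1 / 2 * c) * ‖s0‖ := by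
        rw [h1, inner_add_right, inner_smul_left, inner_smul_left, inner_smul_right,
          inner_smul_right, hs0v, real_inner_self_eq_norm_sq]
        simp only [conj_trivial]
        field_simp
        ring
      rw [hin a, h2, smul_smul, mul_assoc, mul_inv_cancel₀ hs0n, mul_one]
      exact h1

end Pool.Agent.TH747.Del
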