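import Mathlib
import Pool.Agent.TH747.Del.AbPack

set_option autoImplicit false
set_option linter.unusedSectionVars false

/-! Packing bound for finite commutative groups of linear isometries without non-identity elements
near the identity: at most `81 ^ dim` elements. -/

namespace Pool.Agent.TH747.Del

open Module Module.End

variable {V : Type*} [NormedAddCommGroup V] [InnerProductSpace ℝ V] [FiniteDimensional ℝ V]
variable {A : Subgroup (V ≃ₗᵢ[ℝ] V)}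

open scoped Function in
lemma F_top (hA : ∀ a ∈ A, ∀ b ∈ A, a * b = b * a) : ⨆ χ : A ⊕ (A × A) → ℝ, F A χ = ⊤ :=
  LinearMap.IsSymmetric.iSup_iInf_eq_top_of_commute (T_symm hA)
    (fun i j _ => T_comm hA i j)

lemma F_orth (hA : ∀ a ∈ A, ∀ b ∈ A, a * b = b * a) :
    OrthogonalFamily ℝ (fun χ : A ⊕ (A × A) → ℝ => F A χ) fun χ => (F A χ).subtypeₗᵢ :=
  LinearMap.IsSymmetric.orthogonalFamily_iInf_eigenspaces (T_symm hA)

/-- if `c` is near the identity on all nonzero joint eigenspaces then it is near the identity -/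
lemma near_of_F (hA : ∀ a ∈ A, ∀ b ∈ A, a * b = b * a) (c : A)
    (h : ∀ χ, F A χ ≠ ⊥ → 2 - χ (Sum.inl c) ≤ (1 / 2) ^ 2) (w : V) :
    ‖c.1 w - w‖ ≤ 1 / 2 * ‖w‖ := by
  have hw : w ∈ ⨆ χ : A ⊕ (A × A) → ℝ, F A χ := by rw [F_top hA]; trivial
  rw [Submodule.mem_iSup_iff_exists_finsupp] at hw
  obtain ⟨f, hf, hsum⟩ := hw
  have hsum' : ∑ χ ∈ f.support, f χ = w := hsum
  let g : (χ : A ⊕ (A × A) → ℝ) → F A χ := fun χ => ⟨f χ, hf χ⟩
  let g' : (χ : A ⊕ (A × A) → ℝ) → F A χ := fun χ =>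
    ⟨c.1 (f χ) - f χ, (F A χ).sub_mem (F_inv hA (hf χ) c.2) (hf χ)⟩
  have e1 := (F_orth hA).norm_sum g f.support
  have e2 := (F_orth hA).norm_sum g' f.support
  have e3 : ∑ χ ∈ f.support, (F A χ).subtypeₗᵢ (g χ) = w := hsum'
  have e4 : ∑ χ ∈ f.support, (F A χ).subtypeₗᵢ (g' χ) = c.1 w - w := by
    have : ∀ χ, (F A χ).subtypeₗᵢ (g' χ) = c.1 (f χ) - f χ := fun χ => rfl
    simp only [this]
    rw [Finset.sum_sub_distrib, ← map_sum, hsum']
  rw [e3] at e1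
  rw [e4] at e2
  have h1 : ∀ χ ∈ f.support, ‖g' χ‖ ^ 2 ≤ (1 / 2) ^ 2 * ‖g χ‖ ^ 2 := by
    intro χ hχ
    have hne : F A χ ≠ ⊥ := by
      intro hbot
      have := hf χ
      rw [hbot, Submodule.mem_bot] at this
      exact (Finsupp.mem_support_iff.mp hχ) this
    have h2 : ‖c.1 (f χ) - f χ‖ ^ 2 = (2 - χ (Sum.inl c)) * ‖f χ‖ ^ 2 := F_dist (hf χ) c
    change ‖c.1 (f χ) - f χ‖ ^ 2 ≤ (1 / 2) ^ 2 * ‖f χ‖ ^ 2
    rw [h2]
    exact mul_le_mul_of_nonneg_right (h χ hne) (by positivity)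
  have h2 : ‖c.1 w - w‖ ^ 2 ≤ (1 / 2 * ‖w‖) ^ 2 := by
    rw [e2, mul_pow, e1, Finset.mul_sum]
    exact Finset.sum_le_sum h1
  exact (sq_le_sq₀ (norm_nonneg _) (by positivity)).mp h2

/-- quantised coordinates -/
noncomputable def cd (x : ℝ) : ℤ := ⌊4 * x⌋

lemma cd_mem {x : ℝ} (h : |x| ≤ 1) : cd x ∈ Finset.Icc (-4 : ℤ) 4 := by
  rw [abs_le] at h
  rw [Finset.mem_Icc, cd]
  constructor
  · rw [Int.le_floor]; push_cast; linarith
  · have h1 : ((⌊4 * x⌋ : ℤ) : ℝ) ≤ 4 := (Int.floor_le _).trans (by linarith)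
    exact_mod_cast h1

lemma cd_close {x y : ℝ} (h : cd x = cd y) : |x - y| ≤ 1 / 4 := by
  unfold cd at h
  have := Int.abs_sub_lt_one_of_floor_eq_floor h
  rw [abs_lt] at this
  rw [abs_le]
  constructor <;> linarith [this.1, this.2]

/-- A commutative group of linear isometries of `V` whose only element `a` with `‖a - 1‖ ≤ 1/2` is
the identity has at most `81 ^ dim V` elements. -/
theorem card_abelian (hA : ∀ a ∈ A, ∀ b ∈ A, a * b = b * a)
    (hsep : ∀ a ∈ A, (∀ v : V, ‖a v - v‖ ≤ 1 / 2 * ‖v‖) → a = 1) :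
    Finite A ∧ Nat.card A ≤ 81 ^ (finrank ℝ V) := by
  classical
  have hind : iSupIndep (F A) := (F_orth hA).independent
  let I := {χ : A ⊕ (A × A) → ℝ // F A χ ≠ ⊥}
  letI : Fintype I := hind.fintypeNeBotOfFiniteDimensional
  have hI : Fintype.card I ≤ finrank ℝ V := hind.subtype_ne_bot_le_finrank
  have hv : ∀ i : I, ∃ v : V, v ∈ F A i.1 ∧ ‖v‖ = 1 := by
    intro i
    obtain ⟨w, hw, hw0⟩ := (Submodule.ne_bot_iff _).mp i.2
    refine ⟨(‖w‖)⁻¹ • w, (F A i.1).smul_mem _ hw, ?_⟩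
    rw [norm_smul, norm_inv, norm_norm, inv_mul_cancel₀ (norm_ne_zero_iff.mpr hw0)]
  choose v hvF hv1 using hv
  have hu := fun i : I => two_dim hA (hvF i) (hv1 i)
  choose u hu1 hu2 using hu
  have hb1 : ∀ (i : I) (a : A), |inner ℝ (v i) (a.1 (v i))| ≤ 1 := by
    intro i a
    refine (abs_real_inner_le_norm _ _).trans ?_
    rw [a.1.norm_map, hv1]; norm_num
  have hb2 : ∀ (i : I) (a : A), |inner ℝ (u i) (a.1 (v i))| ≤ 1 := by
    intro i a
    refine (abs_real_inner_le_norm _ _).trans ?_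
    rw [a.1.norm_map, hv1, mul_one]; exact hu1 i
  let code : A → (I → (Finset.Icc (-4 : ℤ) 4) × (Finset.Icc (-4 : ℤ) 4)) := fun a i =>
    (⟨cd (inner ℝ (v i) (a.1 (v i))), cd_mem (hb1 i a)⟩,
      ⟨cd (inner ℝ (u i) (a.1 (v i))), cd_mem (hb2 i a)⟩)
  have hinj : Function.Injective code := by
    intro a b hab
    have h1 : ∀ i : I, ‖a.1 (v i) - b.1 (v i)‖ ≤ 1 / 2 := by
      intro i
      have h2 := congrFun hab i
      have h3 : cd (inner ℝ (v i) (a.1 (v i))) = cd (inner ℝ (v i) (b.1 (v i))) :=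
        congrArg Subtype.val (congrArg Prod.fst h2)
      have h4 : cd (inner ℝ (u i) (a.1 (v i))) = cd (inner ℝ (u i) (b.1 (v i))) :=
        congrArg Subtype.val (congrArg Prod.snd h2)
      have h5 : a.1 (v i) - b.1 (v i)
          = (inner ℝ (v i) (a.1 (v i)) - inner ℝ (v i) (b.1 (v i))) • v i
            + (inner ℝ (u i) (a.1 (v i)) - inner ℝ (u i) (b.1 (v i))) • u i := by
        rw [sub_smul, sub_smul]
        nth_rw 1 [hu2 i a]
        nth_rw 1 [hu2 i b]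
        abel
      rw [h5]
      refine (norm_add_le _ _).trans ?_
      rw [norm_smul, norm_smul, Real.norm_eq_abs, Real.norm_eq_abs, hv1 i, mul_one]
      have h6 := cd_close h3
      have h7 := cd_close h4
      have h8 : |inner ℝ (u i) (a.1 (v i)) - inner ℝ (u i) (b.1 (v i))| * ‖u i‖ ≤ 1 / 4 * 1 :=
        mul_le_mul h7 (hu1 i) (norm_nonneg _) (by norm_num)
      linarith
    have h2 : (b⁻¹ * a).1 = 1 := by
      apply hsep _ (b⁻¹ * a).2
      apply near_of_F hA (b⁻¹ * a)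
      intro χ hχ
      have h3 := h1 ⟨χ, hχ⟩
      have h4 := F_dist (hvF ⟨χ, hχ⟩) (b⁻¹ * a)
      rw [hv1] at h4
      have h5 : (b⁻¹ * a).1 (v ⟨χ, hχ⟩) - v ⟨χ, hχ⟩
          = (b.1)⁻¹ (a.1 (v ⟨χ, hχ⟩) - b.1 (v ⟨χ, hχ⟩)) := by
        rw [map_sub, inv_ap]; rfl
      rw [h5, LinearIsometryEquiv.norm_map] at h4
      have h6 : ‖a.1 (v ⟨χ, hχ⟩) - b.1 (v ⟨χ, hχ⟩)‖ ^ 2 ≤ (1 / 2) ^ 2 :=
        pow_le_pow_left₀ (norm_nonneg _) h3 2
      rw [h4] at h6
      simpa using h6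
    have h3 : b⁻¹ * a = 1 := Subtype.ext h2
    have h4 : a = b * (b⁻¹ * a) := by group
    rw [h4, h3, mul_one]
  have hfin : Finite A := Finite.of_injective code hinj
  refine ⟨hfin, ?_⟩
  have h1 := Nat.card_le_card_of_injective code hinj
  have h2 : Nat.card (I → (Finset.Icc (-4 : ℤ) 4) × (Finset.Icc (-4 : ℤ) 4))
      = 81 ^ Fintype.card I := by
    rw [Nat.card_eq_fintype_card, Fintype.card_fun, Fintype.card_prod]
    simp
  rw [h2] at h1
  exact h1.trans (Nat.pow_le_pow_right (by norm_num) hI)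

end Pool.Agent.TH747.Del
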