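import Mathlib
import Pool.Agent.TH747.Del.AbPack2
import Pool.Agent.H186R3.Del4

set_option autoImplicit false
set_option linter.unusedSectionVars false

/-! Regularity from the order of the local group. -/

namespace Pool.Agent.TH747.Del

open Metric Module Pool.Agent.H186R3.Del

/-- Euclidean `d`-space. -/
abbrev E (d : ℕ) := EuclideanSpace ℝ (Fin d)

/-- linear part as a homomorphism -/
noncomputable def linHom (d : ℕ) : (E d ≃ᵢ E d) →* (E d ≃ₗᵢ[ℝ] E d) where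
  toFun := lin
  map_one' := by
    ext1 v
    have : lin (1 : E d ≃ᵢ E d) v = (1 : E d ≃ᵢ E d) v - (1 : E d ≃ᵢ E d) 0 := by
      rw [← lin_sub, sub_zero]
    rw [this, IsometryEquiv.coe_one, id, id, sub_zero]
    rfl
  map_mul' := by
    intro g h
    ext1 v
    rw [lin_mul]; rfl

theorem linHom_injOn {d : ℕ} {x : E d} {g h : E d ≃ᵢ E d} (hg : g x = x) (hh : h x = x)
    (hgh : linHom d g = linHom d h) : g = h := by
  ext1 z
  have h1 : lin g (z - x) = lin h (z - x) := by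
    change linHom d g (z - x) = linHom d h (z - x)
    rw [hgh]
  rw [lin_sub, lin_sub, hg, hh] at h1
  exact sub_left_injective h1

/-- If the length of every strictly decreasing chain of local groups, starting at the radius
`4 R + 11 d R`, is at most `K`, and `(11 d + 8 + 3 K) R ≤ ρ`, then `X` is regular. -/
theorem regular_of_chain {d : ℕ} {r R ρ : ℝ} (hr : 0 < r) (hR : 0 < R) {X : Set (E d)}
    (hsep : ∀ x ∈ X, ∀ y ∈ X, x ≠ y → r ≤ dist x y)
    (hcov : ∀ p : E d, ∃ x ∈ X, dist p x ≤ R)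
    (htr : ∀ x ∈ X, ∀ y ∈ X, ∃ g : E d ≃ᵢ E d, g x = y ∧ LS X g x ρ)
    (K : ℕ) (hK : (11 * d + 8 + 3 * K) * R ≤ ρ) (x0 : E d) (hx0 : x0 ∈ X)
    (hchain : ∀ n : ℕ, ∀ G : ℕ → Subgroup (E d ≃ᵢ E d), G 0 = S X x0 (4 * R + 11 * R * d) →
      (∀ i < n, G (i + 1) < G i) → n ≤ K) :
    ∀ x ∈ X, ∀ y ∈ X, ∃ g : E d ≃ᵢ E d, g x = y ∧ g '' X = X := by
  set ρs : ℝ := 4 * R + 11 * R * d with hρs
  have hd0 : (0 : ℝ) ≤ d := Nat.cast_nonneg d
  have hK0 : (0 : ℝ) ≤ K := Nat.cast_nonneg K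
  have hρs0 : 0 ≤ ρs := by positivity
  have hKR : ρs + 3 * R * (K + 1) ≤ ρ := by
    rw [hρs]
    nlinarith
  have hex : ∃ k ≤ K, S X x0 (ρs + 3 * R * k) ≤ S X x0 (ρs + 3 * R * k + 3 * R) := by
    by_contra hcon
    push Not at hcon
    have h1 := hchain (K + 1) (fun k => S X x0 (ρs + 3 * R * k)) (by simp) (by
      intro i hi
      have e : ρs + 3 * R * ((i + 1 : ℕ) : ℝ) = ρs + 3 * R * i + 3 * R := by push_cast; ring
      have hle : S X x0 (ρs + 3 * R * ((i + 1 : ℕ) : ℝ)) ≤ S X x0 (ρs + 3 * R * i) :=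
        S_anti (by rw [e]; linarith)
      refine lt_of_le_of_ne hle ?_
      intro heq
      apply hcon i (by omega)
      rw [← e, heq])
    omega
  obtain ⟨k, hk, hSk⟩ := hex
  have hkR : (k : ℝ) ≤ K := by exact_mod_cast hk
  have hρk : ρs + 3 * R * k + 3 * R ≤ ρ := by nlinarith
  apply local_theorem (ρ := ρs + 3 * R * k) hR (by positivity) hcov
  · intro x hx y hy
    obtain ⟨g, hg1, hg2⟩ := htr x hx y hy
    exact ⟨g, hg1, hg2.mono' hρk⟩
  · intro x hx
    obtain ⟨g, hg1, hg2⟩ := htr x0 hx0 x hx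
    exact S_transfer hg1 hg2 (by linarith) hρk hSk

theorem chain_card' {Γ : Type*} [Group Γ] {n : ℕ} (G : ℕ → Subgroup Γ) (h0 : Finite (G 0))
    (h : ∀ i < n, G (i + 1) < G i) : ∀ i ≤ n, G i ≤ G 0 ∧ Nat.card (G i) * 2 ^ i ≤ Nat.card (G 0) := by
  intro i
  induction i with
  | zero => intro _; exact ⟨le_rfl, by simp⟩
  | succ i ih =>
    intro hi
    obtain ⟨h1, h2⟩ := ih (by omega)
    have h3 := h i (by omega)
    refine ⟨h3.le.trans h1, ?_⟩
    have hfi : Finite (G i) :=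
      Finite.of_injective (Subgroup.inclusion h1) (Subgroup.inclusion_injective h1)
    have h4 := Subgroup.card_mul_index ((G (i + 1)).subgroupOf (G i))
    have h5 : Nat.card ((G (i + 1)).subgroupOf (G i)) = Nat.card (G (i + 1)) :=
      Nat.card_congr (Subgroup.subgroupOfEquivOfLe h3.le).toEquiv
    rw [h5] at h4
    have h6 : 2 ≤ ((G (i + 1)).subgroupOf (G i)).index := by
      have h7 : ((G (i + 1)).subgroupOf (G i)).index ≠ 1 := by
        intro h8
        rw [Subgroup.index_eq_one, Subgroup.subgroupOf_eq_top] at h8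
        exact h3.not_ge h8
      have h8 : ((G (i + 1)).subgroupOf (G i)).index ≠ 0 := by
        intro h9
        rw [h9, mul_zero] at h4
        exact absurd h4.symm Nat.card_pos.ne'
      omega
    calc Nat.card (G (i + 1)) * 2 ^ (i + 1)
        = (Nat.card (G (i + 1)) * 2) * 2 ^ i := by ring
      _ ≤ Nat.card (G i) * 2 ^ i := by
        apply Nat.mul_le_mul_right
        rw [← h4]
        exact Nat.mul_le_mul_left _ h6
      _ ≤ _ := h2

/-- the local group at radius `4 R + 11 d R` is separated -/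
theorem S_near {d : ℕ} {r R ρ : ℝ} (hr : 0 < r) (hR : 0 < R) {X : Set (E d)}
    (hsep : ∀ x ∈ X, ∀ y ∈ X, x ≠ y → r ≤ dist x y)
    (hcov : ∀ p : E d, ∃ x ∈ X, dist p x ≤ R)
    (htr : ∀ x ∈ X, ∀ y ∈ X, ∃ g : E d ≃ᵢ E d, g x = y ∧ LS X g x ρ)
    (hρ : 5 * R + 11 * R * d ≤ ρ) (x : E d) :
    Finite (S X x (4 * R + 11 * R * d)) ∧
    ∀ g ∈ S X x (4 * R + 11 * R * d), (∀ v, ‖lin g v - v‖ ≤ 1 / 2 * ‖v‖) → g = 1 := by
  have hfr : finrank ℝ (E d) = d := finrank_euclideanSpace_fin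
  have h1 := card_S hr hR hsep hcov htr (by rw [hfr]; exact hρ) x
  rw [hfr] at h1
  refine ⟨h1.1, fun g hg hn => ?_⟩
  have h2 := N_trivial hr hR hsep hcov htr (by rw [hfr]; exact hρ) x g
  rw [hfr] at h2
  exact h2 ⟨hg.1, hg.2, hn⟩

/-- packing for commutative subgroups of the local group -/
theorem card_ab {d : ℕ} {r R ρ : ℝ} (hr : 0 < r) (hR : 0 < R) {X : Set (E d)}
    (hsep : ∀ x ∈ X, ∀ y ∈ X, x ≠ y → r ≤ dist x y)
    (hcov : ∀ p : E d, ∃ x ∈ X, dist p x ≤ R)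
    (htr : ∀ x ∈ X, ∀ y ∈ X, ∃ g : E d ≃ᵢ E d, g x = y ∧ LS X g x ρ)
    (hρ : 5 * R + 11 * R * d ≤ ρ) (x : E d) (A : Subgroup (E d ≃ᵢ E d))
    (hA : A ≤ S X x (4 * R + 11 * R * d)) (hcomm : ∀ a ∈ A, ∀ b ∈ A, a * b = b * a) :
    Nat.card A ≤ 81 ^ d := by
  obtain ⟨hfin, hnear⟩ := S_near hr hR hsep hcov htr hρ x
  have h := card_abelian (A := A.map (linHom d)) (by
      rintro _ ⟨a, ha, rfl⟩ _ ⟨b, hb, rfl⟩
      rw [← map_mul, ← map_mul, hcomm a ha b hb])
    (by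
      rintro _ ⟨a, ha, rfl⟩ hn
      rw [hnear a (hA ha) hn, map_one])
  rw [finrank_euclideanSpace_fin] at h
  have e : Nat.card (A.map (linHom d)) = Nat.card A := by
    symm
    apply Nat.card_congr
    refine Equiv.ofBijective ((linHom d).subgroupMap A) ⟨?_, (linHom d).subgroupMap_surjective A⟩
    intro a b hab
    have h1 : linHom d a.1 = linHom d b.1 := congrArg Subtype.val hab
    exact Subtype.ext (linHom_injOn (hA a.2).1 (hA b.2).1 h1)
  rw [← e]; exact h.2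

end Pool.Agent.TH747.Del
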